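import Pool.Agent.helper17.EXC.Spec

set_option autoImplicit false

open Finset

namespace Pool.Agent.EXC

/-- from `Cl (adj E - 1) y` to `Cl (E - 1) y` -/
theorem L31_adj (hE2C : E2C_stmt) (hKND : KND_stmt) (F : Type) [Field F] (E : Matrix (Fin 2) (Fin 2) F)
    (hd : E.det = 1) (y : Matrix (Fin 6) (Fin 6) F) (h : Cl (E.adjugate - 1) y) : Cl (E - 1) y := by
  obtain ⟨g, g', h1, h2, h3⟩ := (hE2C F).1 E hd
  have h4 := (hKND F).2 (E.adjugate - 1) g' g y h2 h
  have h5 : g' * (E.adjugate - 1) * g = E - 1 := by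
    rw [h3, mul_sub, sub_mul, mul_one, h2]
    have : g' * (g * E * g') * g = (g' * g) * E * (g' * g) := by simp only [mul_assoc]
    rw [this, h2, one_mul, mul_one]
  rwa [h5] at h4

/-- the common part of L31, L61, L62 -/
theorem L31_core (hFL0 : FL0_stmt) (hE2C : E2C_stmt) (hRBC : RBC_stmt) (hKND : KND_stmt) (hEIG : EIG_stmt)
    (F K : Type) [Field F] [Finite F] [Field K] [Algebra F K] [IsAlgClosed K] (r : ℕ) (hr : r.Prime)
    (hq : ¬ r ∣ Nat.card F) (hq1 : ¬ r ∣ Nat.card F - 1) (ζ : K) (hζ : IsPrimitiveRoot ζ r)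
    (E N2 N3 : Matrix (Fin 2) (Fin 2) F) (w w' : Fin 2 → K) (hd : E.det = 1) (hw : w ≠ 0)
    (h1 : w' = ζ • w - Matrix.mulVec (E.map (algebraMap F K)) w)
    (h2 : (ζ + ζ⁻¹ - algebraMap F K E.trace) • w' =
      Matrix.mulVec (N2.map (algebraMap F K)) w' + Matrix.mulVec (N3.map (algebraMap F K)) w)
    (hu : ∀ u : Fin 2 → F, Matrix.vecMul u (E - 1) = 0 → Matrix.vecMul u N2 = 0 → Matrix.vecMul u N3 = 0 → u = 0) :
    ∃ y1 y2 y3 : Matrix (Fin 6) (Fin 6) F, Cl (E - 1) y1 ∧ Cl (E - 1) y2 ∧ Cl (E - 1) y3 ∧ NSc r (y1 * y2 * y3) := by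
  refine ⟨rb 0 ![E - 1, N2, N3], rb 1 ![1, E.adjugate - 1, 0], rb 2 ![0, 1, E - 1], ?_, ?_, ?_, ?_⟩
  · have h := hRBC F 0 ![E - 1, N2, N3] (fun u hu' => hu u (by simpa using hu' 0) (by simpa using hu' 1)
      (by simpa using hu' 2))
    simpa using h
  · refine L31_adj hE2C hKND F E hd _ ?_
    have h := hRBC F 1 ![1, E.adjugate - 1, 0] (fun u hu' => by simpa using hu' 0)
    simpa using h
  · have h := hRBC F 2 ![0, 1, E - 1] (fun u hu' => by simpa using hu' 1)
    simpa using h
  · intro m hm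
    obtain ⟨c, hc⟩ := hm
    have hz0 : ζ ≠ 0 := hζ.ne_zero hr.ne_zero
    have h3 := (hEIG F K E N2 N3 ζ w w' hd hz0 hw).1 h1 h2 m c hc
    exact (hFL0 F K r hr hq).2.2.2 ζ hζ hq1 m c h3

theorem L31_inv {K : Type} [Field K] (z a b : K) (h : z ^ 3 = a * z ^ 2 - b * z + 1) :
    z⁻¹ = z ^ 2 - a * z + b := by
  apply inv_eq_of_mul_eq_one_right
  linear_combination h

theorem L31_three {K : Type} [Field K] (z : K) (h : z ^ 3 = 3 * z ^ 2 - 3 * z + 1) : z = 1 := by
  have h1 : (z - 1) ^ 3 = 0 := by linear_combination h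
  have h2 : z - 1 = 0 := by simpa using h1
  linear_combination h2

theorem L31 (hFL0 : FL0_stmt) (hFL3 : FL3_stmt) (hE2C : E2C_stmt) (hRBC : RBC_stmt) (hKND : KND_stmt)
    (hEIG : EIG_stmt) : L31_stmt := by
  intro F _ _ r hr hq hq3 hq1 N hN hN'
  let K := AlgebraicClosure F
  obtain ⟨ζ, hζ⟩ := (hFL0 F K r hr hq).1
  have hz0 : ζ ≠ 0 := hζ.ne_zero hr.ne_zero
  have hz1 : ζ ≠ 1 := hζ.ne_one hr.one_lt
  obtain ⟨⟨α, β, hab⟩, -⟩ := hFL3 F K r hr hq hq3 hq1 ζ hζ
  have hinv := L31_inv ζ _ _ hab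
  have m2 : algebraMap F K 2 = 2 := map_ofNat _ 2
  have m3 : algebraMap F K 3 = 3 := map_ofNat _ 3
  have h33 : ¬ (α = 3 ∧ β = 3) := by
    rintro ⟨rfl, rfl⟩
    refine hz1 (L31_three ζ ?_)
    rw [hab, m3]
  rcases hN' with hN0 | hNs
  · -- the case `N = 0`
    subst hN0
    have hd : (1 : Matrix (Fin 2) (Fin 2) F).det = 1 := Matrix.det_one
    have key := L31_core hFL0 hE2C hRBC hKND hEIG F K r hr hq hq1 ζ hζ (1 : Matrix (Fin 2) (Fin 2) F)
      ((α - 3) • (1 : Matrix (Fin 2) (Fin 2) F)) ((α - β) • (1 : Matrix (Fin 2) (Fin 2) F)) ![1, 0] ![ζ - 1, 0] hd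
      (fun h => by simpa using congrFun h 0) ?_ ?_ ?_
    · simpa using key
    · funext i
      fin_cases i <;> simp [Matrix.mulVec, dotProduct, Fin.sum_univ_two]
    · funext i
      fin_cases i
      · simp [Matrix.mulVec, dotProduct, Fin.sum_univ_two, Matrix.trace]
        rw [hinv]
        simp only [m2, m3]
        linear_combination hab
      · simp [Matrix.mulVec, dotProduct, Fin.sum_univ_two, Matrix.trace]
    · intro u _ h2 h3
      by_contra hne
      apply h33
      have h2' : ∀ i, u i * (α - 3) = 0 := by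
        intro i
        have := congrFun h2 i
        fin_cases i <;> simpa [Matrix.vecMul, dotProduct, Fin.sum_univ_two] using this
      have h3' : ∀ i, u i * (α - β) = 0 := by
        intro i
        have := congrFun h3 i
        fin_cases i <;> simpa [Matrix.vecMul, dotProduct, Fin.sum_univ_two] using this
      obtain ⟨i, hi⟩ := Function.ne_iff.1 hne
      have hi' : u i ≠ 0 := hi
      have e1 : α - 3 = 0 := (mul_eq_zero.1 (h2' i)).resolve_left hi'
      have e2 : α - β = 0 := (mul_eq_zero.1 (h3' i)).resolve_left hi'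
      have e3 : α = 3 := by linear_combination e1
      exact ⟨e3, by linear_combination e1 - e2⟩
  · -- the case of a nonscalar `N`
    set τ : F := (1 + N).trace with hτ
    let E₀ : Matrix (Fin 2) (Fin 2) F := !![1, 1; τ - 2, τ - 1]
    have hd : E₀.det = 1 := by
      simp only [E₀, Matrix.det_fin_two_of]
      ring
    have ht : E₀.trace = τ := by simp [E₀, Matrix.trace, Fin.sum_univ_two]
    have hns0 : ∀ c : F, E₀ ≠ c • (1 : Matrix (Fin 2) (Fin 2) F) := by
      intro c h
      have := congrFun (congrFun h 0) 1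
      simp [E₀] at this
    have hns : ∀ c : F, 1 + N ≠ c • (1 : Matrix (Fin 2) (Fin 2) F) := by
      intro c h
      refine hNs (c - 1) ?_
      rw [sub_smul, one_smul, ← h]
      abel
    obtain ⟨h, h', hh1, hh2, hh3⟩ := (hE2C F).2 E₀ (1 + N) hd hN ht hns0 hns
    have hNE : N = h * (E₀ - 1) * h' := by
      rw [mul_sub, sub_mul, ← hh3, mul_one, hh1]
      abel
    set A : F := α - 2 * τ + 3 with hA
    let N2 : Matrix (Fin 2) (Fin 2) F := !![-τ, -1; 0, A - τ]
    let N3 : Matrix (Fin 2) (Fin 2) F := !![-β - τ + 2, α - τ;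
      2 - τ - (τ - 2) * β + A * (τ - 2), -β - τ + 3 + (τ - 2) * α + A * (τ - 1)]
    let a : F →+* K := algebraMap F K
    have key := L31_core hFL0 hE2C hRBC hKND hEIG F K r hr hq hq1 ζ hζ E₀ N2 N3 ![1, ζ]
      ![-1, ζ ^ 2 - (a τ - 1) * ζ - (a τ - 2)] hd (fun h => by simpa using congrFun h 0) ?_ ?_ ?_
    · obtain ⟨y1, y2, y3, c1, c2, c3, hns⟩ := key
      refine ⟨y1, y2, y3, ?_, ?_, ?_, hns⟩
      · rw [hNE]; exact (hKND F).2 _ h h' y1 hh1 c1
      · rw [hNE]; exact (hKND F).2 _ h h' y2 hh1 c2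
      · rw [hNE]; exact (hKND F).2 _ h h' y3 hh1 c3
    · funext i
      fin_cases i
      · simp [Matrix.mulVec, dotProduct, Fin.sum_univ_two, E₀]
      · simp [Matrix.mulVec, dotProduct, Fin.sum_univ_two, E₀, a]
        simp only [m2]
        ring
    · rw [ht]
      funext i
      fin_cases i
      · simp [Matrix.mulVec, dotProduct, Fin.sum_univ_two, N2, N3, a]
        rw [hinv]
        simp only [m2, m3]
        ring
      · simp [Matrix.mulVec, dotProduct, Fin.sum_univ_two, N2, N3, a, hA]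
        rw [hinv]
        simp only [m2, m3]
        linear_combination (ζ + 2 - algebraMap F K τ) * hab
    · intro u h1 h2 h3
      have e0 := congrFun h1 0
      have e1 := congrFun h1 1
      have f1 := congrFun h2 1
      have g1 := congrFun h3 1
      simp [Matrix.vecMul, dotProduct, Fin.sum_univ_two, E₀] at e0
      simp [Matrix.vecMul, dotProduct, Fin.sum_univ_two, E₀] at e1
      simp [Matrix.vecMul, dotProduct, Fin.sum_univ_two, N2] at f1
      simp [Matrix.vecMul, dotProduct, Fin.sum_univ_two, N3] at g1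
      by_contra hne
      have hu1 : u 1 ≠ 0 := by
        intro h0
        apply hne
        funext i
        fin_cases i
        · simp [h0] at e1
          simpa using e1
        · simpa using h0
      have t2 : τ = 2 := by
        rcases e0 with h0 | h0
        · exact absurd h0 hu1
        · linear_combination h0
      have u0 : u 0 = 0 := by
        rw [t2] at e1
        ring_nf at e1
        simpa using e1
      rw [u0, t2] at f1
      rw [u0, t2] at g1
      have f2 : u 1 * (A - 2) = 0 := by linear_combination f1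
      have A2 : A = 2 := by
        have := (mul_eq_zero.1 f2).resolve_left hu1
        linear_combination this
      have a3 : α = 3 := by
        rw [hA, t2] at A2
        linear_combination A2
      have g2 : u 1 * (3 - β) = 0 := by
        rw [A2, a3] at g1
        linear_combination g1
      have b3 : β = 3 := by
        have := (mul_eq_zero.1 g2).resolve_left hu1
        linear_combination -this
      exact h33 ⟨a3, b3⟩

end Pool.Agent.EXC
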