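import Pool.Agent.helper17.EXC.Spec

set_option autoImplicit false

open Finset

namespace Pool.Agent.EXC

/-- from `Cl (adj E - 1) y` to `Cl (E - 1) y` -/
theorem L61_adj (hE2C : E2C_stmt) (hKND : KND_stmt) (F : Type) [Field F] (E : Matrix (Fin 2) (Fin 2) F)
    (hd : E.det = 1) (y : Matrix (Fin 6) (Fin 6) F) (h : Cl (E.adjugate - 1) y) : Cl (E - 1) y := by
  obtain ⟨g, g', h1, h2, h3⟩ := (hE2C F).1 E hd
  have h4 := (hKND F).2 (E.adjugate - 1) g' g y h2 h
  have h5 : g' * (E.adjugate - 1) * g = E - 1 := by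
    rw [h3, mul_sub, sub_mul, mul_one, h2]
    have : g' * (g * E * g') * g = (g' * g) * E * (g' * g) := by simp only [mul_assoc]
    rw [this, h2, one_mul, mul_one]
  rwa [h5] at h4

/-- the common part of L61 -/
theorem L61_core (hFL0 : FL0_stmt) (hE2C : E2C_stmt) (hRBC : RBC_stmt) (hKND : KND_stmt) (hEIG : EIG_stmt)
    (F K : Type) [Field F] [Finite F] [Field K] [Algebra F K] [IsAlgClosed K] (r : ℕ) (hr : r.Prime)
    (hq : ¬ r ∣ Nat.card F) (hq1 : ¬ r ∣ Nat.card F - 1) (ζ : K) (hζ : IsPrimitiveRoot ζ r)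
    (E N2 N3 : Matrix (Fin 2) (Fin 2) F) (w w' : Fin 2 → K) (hd : E.det = 1) (hw : w ≠ 0)
    (h1 : w' = ζ • w - Matrix.mulVec (E.map (algebraMap F K)) w)
    (h2 : (ζ + ζ⁻¹ - algebraMap F K E.trace) • w' =
      Matrix.mulVec (N2.map (algebraMap F K)) w' + Matrix.mulVec (N3.map (algebraMap F K)) w)
    (hu : ∀ u : Fin 2 → F, Matrix.vecMul u (E - 1) = 0 → Matrix.vecMul u N2 = 0 → Matrix.vecMul u N3 = 0 → u = 0) :
    ∃ y1 y2 y3 : Matrix (Fin 6) (Fin 6) F, Cl (E - 1) y1 ∧ Cl (E - 1) y2 ∧ Cl (E - 1) y3 ∧ NSc r (y1 * y2 * y3) := by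
  refine ⟨rb 0 ![E - 1, N2, N3], rb 1 ![1, E.adjugate - 1, 0], rb 2 ![0, 1, E - 1], ?_, ?_, ?_, ?_⟩
  · have h := hRBC F 0 ![E - 1, N2, N3] (fun u hu' => hu u (by simpa using hu' 0) (by simpa using hu' 1)
      (by simpa using hu' 2))
    simpa using h
  · refine L61_adj hE2C hKND F E hd _ ?_
    have h := hRBC F 1 ![1, E.adjugate - 1, 0] (fun u hu' => by simpa using hu' 0)
    simpa using h
  · have h := hRBC F 2 ![0, 1, E - 1] (fun u hu' => by simpa using hu' 1)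
    simpa using h
  · intro m hm
    obtain ⟨c, hc⟩ := hm
    have hz0 : ζ ≠ 0 := hζ.ne_zero hr.ne_zero
    have h3 := (hEIG F K E N2 N3 ζ w w' hd hz0 hw).1 h1 h2 m c hc
    exact (hFL0 F K r hr hq).2.2.2 ζ hζ hq1 m c h3


theorem L61 (hFL0 : FL0_stmt) (hFL6 : FL6_stmt) (hE2C : E2C_stmt) (hRBC : RBC_stmt) (hKND : KND_stmt)
    (hEIG : EIG_stmt) : L61_stmt := by
  intro F _ _ r hr hq hq6 hq2 hq3 N hN hNs
  let K := AlgebraicClosure F
  have hq1 : ¬ r ∣ Nat.card F - 1 := by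
    intro h
    apply hq2
    have h1 : Nat.card F - 1 ∣ Nat.card F ^ 2 - 1 := by
      have := Nat.sub_dvd_pow_sub_pow (Nat.card F) 1 2
      simpa using this
    exact h.trans h1
  obtain ⟨⟨ζ, hζ, c1, c2, c3, c4, c5, hc5, hpol, hind⟩, -⟩ := hFL6 F K r hr hq hq6 hq2 hq3
  have hz0 : ζ ≠ 0 := hζ.ne_zero hr.ne_zero
  have hz1 : ζ ≠ 1 := hζ.ne_one hr.one_lt
  have m2 : algebraMap F K 2 = 2 := map_ofNat _ 2
  set τ : F := (1 + N).trace with hτ
  let E₀ : Matrix (Fin 2) (Fin 2) F := !![0, -1; 1, τ]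
  have hd : E₀.det = 1 := by
    simp only [E₀, Matrix.det_fin_two_of]
    ring
  have ht : E₀.trace = τ := by simp [E₀, Matrix.trace, Fin.sum_univ_two]
  have hns0 : ∀ c : F, E₀ ≠ c • (1 : Matrix (Fin 2) (Fin 2) F) := by
    intro c h
    have := congrFun (congrFun h 0) 1
    simp [E₀] at this
  have hns : ∀ c : F, 1 + N ≠ c • (1 : Matrix (Fin 2) (Fin 2) F) := by
    intro c h
    refine hNs (c - 1) ?_
    rw [sub_smul, one_smul, ← h]
    abel
  obtain ⟨h, h', hh1, hh2, hh3⟩ := (hE2C F).2 E₀ (1 + N) hd hN ht hns0 hns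
  have hNE : N = h * (E₀ - 1) * h' := by
    rw [mul_sub, sub_mul, ← hh3, mul_one, hh1]
    abel
  obtain ⟨b, hb⟩ : ∃ b : F, b * c5 = c3 + τ := ⟨(c3 + τ) / c5, by field_simp⟩
  set d : F := c4 - b with hdd
  set μ2 : F := c2 - b * d with hμ2
  set μ1 : F := c1 + b * τ with hμ1
  let R2 : Matrix (Fin 2) (Fin 2) F := !![0, -μ2; 0, -c5]
  let R1 : Matrix (Fin 2) (Fin 2) F := !![-b, -μ1; 0, -d]
  let N2 : Matrix (Fin 2) (Fin 2) F := !![-τ, 1 - μ2; -1, -c5 - 2 * τ]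
  let N3 : Matrix (Fin 2) (Fin 2) F :=
    !![1 + (1 - μ2) - b, -τ + τ + (1 - μ2) * τ - μ1; τ + (-c5 - 2 * τ), 1 + τ * τ + 1 + (-c5 - 2 * τ) * τ - d]
  let a : F →+* K := algebraMap F K
  set g : K := ζ ^ 3 + a c5 * ζ ^ 2 + a d * ζ - a τ with hg
  have hbK : a b * a c5 = a c3 + a τ := by rw [← map_mul, hb, map_add]
  have hpol' : ζ ^ 3 * g + a μ2 * ζ ^ 2 + ζ * (a b * g + a μ1) + 1 = 0 := by
    have e1 : a μ2 = a c2 - a b * a d := by rw [hμ2, map_sub, map_mul]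
    have e2 : a μ1 = a c1 + a b * a τ := by rw [hμ1, map_add, map_mul]
    have e3 : a d = a c4 - a b := by rw [hdd, map_sub]
    have e4 : ζ ^ 6 + a c5 * ζ ^ 5 + a c4 * ζ ^ 4 + a c3 * ζ ^ 3 + a c2 * ζ ^ 2 + a c1 * ζ + 1 = 0 := hpol
    rw [hg, e1, e2]
    rw [e3]
    linear_combination e4 + ζ ^ 3 * hbK
  have hzi : ζ * ζ⁻¹ = 1 := mul_inv_cancel₀ hz0
  have key := L61_core hFL0 hE2C hRBC hKND hEIG F K r hr hq hq1 ζ hζ E₀ N2 N3 ![g, 1]
    ![ζ * g + 1, ζ - g - a τ] hd (fun h => by simpa using congrFun h 1) ?_ ?_ ?_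
  · obtain ⟨y1, y2, y3, k1, k2, k3, hns⟩ := key
    refine ⟨y1, y2, y3, ?_, ?_, ?_, hns⟩
    · rw [hNE]; exact (hKND F).2 _ h h' y1 hh1 k1
    · rw [hNE]; exact (hKND F).2 _ h h' y2 hh1 k2
    · rw [hNE]; exact (hKND F).2 _ h h' y3 hh1 k3
  · funext i
    fin_cases i
    · simp [Matrix.mulVec, dotProduct, Fin.sum_univ_two, E₀]
    · simp [Matrix.mulVec, dotProduct, Fin.sum_univ_two, E₀, a]
      ring
  · rw [ht]
    funext i
    fin_cases i
    · simp [Matrix.mulVec, dotProduct, Fin.sum_univ_two, N2, N3]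
      apply mul_left_cancel₀ hz0
      linear_combination hpol' + (ζ * g + 1) * hzi
    · simp [Matrix.mulVec, dotProduct, Fin.sum_univ_two, N2, N3]
      apply mul_left_cancel₀ hz0
      linear_combination (ζ - g - a τ) * hzi - hg + ζ ^ 2 * a τ * m2
  · intro u h1 h2 h3
    have h10 := congrFun h1 0
    have h11 := congrFun h1 1
    have h20 := congrFun h2 0
    have h21 := congrFun h2 1
    have h30 := congrFun h3 0
    have h31 := congrFun h3 1
    simp [Matrix.vecMul, dotProduct, Fin.sum_univ_two, E₀] at h10 h11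
    simp [Matrix.vecMul, dotProduct, Fin.sum_univ_two, N2] at h20 h21
    simp [Matrix.vecMul, dotProduct, Fin.sum_univ_two, N3] at h30 h31
    have H20 := congrArg a h20
    have H21 := congrArg a h21
    have H30 := congrArg a h30
    have H31 := congrArg a h31
    simp only [map_add, map_sub, map_mul, map_neg, map_zero, map_one] at H20 H21 H30 H31
    have m2' : a 2 = 2 := m2
    rw [m2'] at H21 H30 H31
    have k : (ζ ^ 2 + 1 - a τ * ζ) * (a (u 0) * (ζ * g + 1) + a (u 1) * (ζ - g - a τ)) = 0 := by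
      linear_combination a (u 0) * hpol' - a (u 1) * hg + ζ * ((ζ * g + 1) * H20 + (ζ - g - a τ) * H21 + g * H30 + H31)
    have hu1 : u 1 = u 0 := by linear_combination h10
    by_contra hne
    have hu0 : u 0 ≠ 0 := by
      intro h0
      apply hne
      funext i
      fin_cases i
      · exact h0
      · show u 1 = 0
        rw [hu1, h0]
    have hτ2 : τ = 2 := by
      rw [hu1] at h11
      have : u 0 * (τ - 2) = 0 := by linear_combination h11
      rcases mul_eq_zero.mp this with h | h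
      · exact absurd h hu0
      · linear_combination h
    have haτ : a τ = 2 := by rw [hτ2]; exact m2
    rcases mul_eq_zero.mp k with k1 | k1
    · rw [haτ] at k1
      have : (ζ - 1) ^ 2 = 0 := by linear_combination k1
      have h5 : ζ - 1 = 0 := pow_eq_zero_iff (two_ne_zero) |>.mp this
      exact hz1 (by linear_combination h5)
    · rw [hu1] at k1
      have h6 := hind (u 0) (u 0 * (1 - τ - d)) (u 0 * (d - c5)) (u 0 * (c5 - 1)) (u 0) 0 ?_
      · exact hu0 h6.1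
      · show a (u 0) + a (u 0 * (1 - τ - d)) * ζ + a (u 0 * (d - c5)) * ζ ^ 2 + a (u 0 * (c5 - 1)) * ζ ^ 3 +
          a (u 0) * ζ ^ 4 + a 0 * ζ ^ 5 = 0
        simp only [map_sub, map_mul, map_zero, map_one]
        rw [hg] at k1
        linear_combination k1

end Pool.Agent.EXC
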