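import Pool.Agent.helper17.EXC.Spec

set_option autoImplicit false

open Finset

namespace Pool.Agent.EXC

theorem PRD_xe_smul {n : ℕ} (C : Matrix (Fin n) (Fin n) ℤ) [IsC C] {F : Type} [Field F] (a : Lm C F) (c t : F) (v : Lm C F) :
    xe C (c • a) t v = xe C a (c * t) v := by
  simp only [xe, br_smul_left, fm_smul_left, smul_smul]
  congr 1
  · congr 1
    rw [mul_comm]
  · congr 1
    ring

theorem PRD_xe_zero {n : ℕ} (C : Matrix (Fin n) (Fin n) ℤ) [IsC C] {F : Type} [Field F] (a : Lm C F) (v : Lm C F) :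
    xe C a 0 v = v := by
  simp [xe]

theorem PRD_isX_zero {n : ℕ} (C : Matrix (Fin n) (Fin n) ℤ) [IsC C] {F : Type} [Field F] (a : Lm C F)
    (g : Lm C F ≃ₗ[F] Lm C F) (h : IsX C a 0 g) : g = 1 := by
  ext1 v
  rw [h v, PRD_xe_zero]
  rfl

theorem PRD_isX_smul {n : ℕ} (C : Matrix (Fin n) (Fin n) ℤ) [IsC C] {F : Type} [Field F] (a : Lm C F) (c t : F)
    (g : Lm C F ≃ₗ[F] Lm C F) (h : IsX C (c • a) t g) : IsX C a (c * t) g := by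
  intro v
  rw [h v, PRD_xe_smul]

theorem PRD_Rm_list {n : ℕ} (C : Matrix (Fin n) (Fin n) ℤ) [IsC C] {F : Type} [Field F] (δ : Fin 5 → Fin n)
    (hmul : ∀ (g h : Lm C F ≃ₗ[F] Lm C F) (m m' : Matrix.SpecialLinearGroup (Fin 6) F), Rm C δ g m → Rm C δ h m' →
      Rm C δ (g * h) (m * m')) (hone : Rm C δ (1 : Lm C F ≃ₗ[F] Lm C F) 1) :
    ∀ (k : ℕ) (f : Fin k → EG C F) (M : Fin k → Matrix.SpecialLinearGroup (Fin 6) F),
      (∀ i, Rm C δ (f i : Lm C F ≃ₗ[F] Lm C F) (M i)) →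
      Rm C δ (((List.ofFn f).prod : EG C F) : Lm C F ≃ₗ[F] Lm C F) (List.ofFn M).prod := by
  intro k
  induction k with
  | zero => intro f M _; simpa using hone
  | succ k ih =>
    intro f M h
    rw [List.ofFn_succ, List.ofFn_succ, List.prod_cons, List.prod_cons]
    exact hmul _ _ _ _ (h 0) (ih _ _ fun i => h i.succ)

theorem PRD_Rm_pow {n : ℕ} (C : Matrix (Fin n) (Fin n) ℤ) [IsC C] {F : Type} [Field F] (δ : Fin 5 → Fin n)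
    (hmul : ∀ (g h : Lm C F ≃ₗ[F] Lm C F) (m m' : Matrix.SpecialLinearGroup (Fin 6) F), Rm C δ g m → Rm C δ h m' →
      Rm C δ (g * h) (m * m')) (hone : Rm C δ (1 : Lm C F ≃ₗ[F] Lm C F) 1) (g : EG C F)
    (M : Matrix.SpecialLinearGroup (Fin 6) F) (h : Rm C δ (g : Lm C F ≃ₗ[F] Lm C F) M) :
    ∀ j : ℕ, Rm C δ ((g ^ j : EG C F) : Lm C F ≃ₗ[F] Lm C F) (M ^ j) := by
  intro j
  induction j with
  | zero => simpa using hone
  | succ j ih =>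
    rw [pow_succ, pow_succ]
    exact hmul _ _ _ _ ih h

theorem PRD_coe_list {F : Type} [Field F] : ∀ (k : ℕ) (M : Fin k → Matrix.SpecialLinearGroup (Fin 6) F)
    (y : Fin k → Matrix (Fin 6) (Fin 6) F), (∀ i, y i = (M i : Matrix (Fin 6) (Fin 6) F)) →
    (((List.ofFn M).prod : Matrix.SpecialLinearGroup (Fin 6) F) : Matrix (Fin 6) (Fin 6) F) = (List.ofFn y).prod := by
  intro k
  induction k with
  | zero => intro M y _; simp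
  | succ k ih =>
    intro M y h
    rw [List.ofFn_succ, List.ofFn_succ, List.prod_cons, List.prod_cons, Matrix.SpecialLinearGroup.coe_mul, h 0,
      ih (fun i => M i.succ) (fun i => y i.succ) fun i => h i.succ]

/-- the core: from the data `X1, X2` -/
theorem PRD_core (hRMB : RMB_stmt) (hLIF : LIF_stmt) (hCJG : CJG_stmt) (hKND : KND_stmt) (hIOI : IOI_stmt) (hFIX : FIX_stmt)
    (n : ℕ) (C : Matrix (Fin n) (Fin n) ℤ) [IsC C] (F : Type) [Field F] (j0 : Fin n) (θ : Fin n → ℤ) (δ : Fin 5 → Fin n)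
    (hE : IsE C j0 θ δ) (Y g₀ X1 X2 : EG C F) (c d : Fin 6) (hcd : (c = 1 ∧ d = 0) ∨ (c = 1 ∧ d = 2) ∨ (c = 2 ∧ d = 3))
    (s1 s2 : F) (h1 : s1 ≠ 0) (h2 : s2 ≠ 0) (hX1 : IsX C (E C (ro δ c d)) s1 (X1 : Lm C F ≃ₗ[F] Lm C F))
    (hX2 : IsX C (E C (ro δ 0 1)) s2 (X2 : Lm C F ≃ₗ[F] Lm C F)) (hY : g₀ * Y * g₀⁻¹ = X1 * X2) :
    ∃ (N : Matrix (Fin 2) (Fin 2) F), (1 + N).det = 1 ∧ (N = 0 ∨ ∀ c : F, N ≠ c • (1 : Matrix (Fin 2) (Fin 2) F)) ∧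
    ∀ (k : ℕ) (y : Fin k → Matrix (Fin 6) (Fin 6) F), (∀ i, Cl N (y i)) → ∃ g : Fin k → EG C F, ∀ j : ℕ,
      (MulAut.conj (List.ofFn fun i => g i * Y * (g i)⁻¹).prod) ^ j = 1 →
        ∃ c : F, (List.ofFn y).prod ^ j = c • (1 : Matrix (Fin 6) (Fin 6) F) := by
  obtain ⟨rm1, rm2, rm3, rm4⟩ := hRMB n C F j0 θ δ hE
  have hne : c ≠ d := by rcases hcd with ⟨rfl, rfl⟩ | ⟨rfl, rfl⟩ | ⟨rfl, rfl⟩ <;> decide
  have het : ∀ a b : Fin 6, (et a b : F) * (et a b : F) = 1 := by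
    intro a b
    unfold et
    split_ifs <;> simp
  have het0 : ∀ a b : Fin 6, (et a b : F) ≠ 0 := by
    intro a b h
    have := het a b
    rw [h, mul_zero] at this
    exact zero_ne_one this
  set t1 : F := (et c d : F) * s1 with ht1
  set t2 : F := (et 0 1 : F) * s2 with ht2
  have ht10 : t1 ≠ 0 := mul_ne_zero (het0 c d) h1
  have ht20 : t2 ≠ 0 := mul_ne_zero (het0 0 1) h2
  obtain ⟨N, hN1, hN2, hN3⟩ := (hKND F).1 t1 t2 c d ht10 ht20 hcd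
  refine ⟨N, hN1, hN2, ?_⟩
  have hdet : ∀ (i j : Fin 6) (t : F), i ≠ j → (1 + Matrix.single i j t : Matrix (Fin 6) (Fin 6) F).det = 1 := by
    intro i j t hij
    exact Matrix.det_transvection_of_ne i j hij t
  let m1 : Matrix.SpecialLinearGroup (Fin 6) F := ⟨1 + Matrix.single c d t1, hdet c d t1 hne⟩
  let m2 : Matrix.SpecialLinearGroup (Fin 6) F := ⟨1 + Matrix.single 0 1 t2, hdet 0 1 t2 (by decide)⟩
  have hR1 : Rm C δ (X1 : Lm C F ≃ₗ[F] Lm C F) m1 := by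
    refine rm1 c d t1 _ m1 hne ?_ rfl
    have : (et c d : F) * t1 = s1 := by rw [ht1, ← mul_assoc, het, one_mul]
    rw [this]
    exact hX1
  have hR2 : Rm C δ (X2 : Lm C F ≃ₗ[F] Lm C F) m2 := by
    refine rm1 0 1 t2 _ m2 (by decide) ?_ rfl
    have : (et 0 1 : F) * t2 = s2 := by rw [ht2, ← mul_assoc, het, one_mul]
    rw [this]
    exact hX2
  have hR : Rm C δ ((g₀ * Y * g₀⁻¹ : EG C F) : Lm C F ≃ₗ[F] Lm C F) (m1 * m2) := by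
    rw [hY]
    exact rm2 _ _ _ _ hR1 hR2
  have hy : ((m1 * m2 : Matrix.SpecialLinearGroup (Fin 6) F) : Matrix (Fin 6) (Fin 6) F) =
      (1 + Matrix.single c d t1) * (1 + Matrix.single 0 1 t2) := rfl
  intro k y hyk
  have hm : ∀ i, ∃ m : Matrix.SpecialLinearGroup (Fin 6) F, y i = (m : Matrix (Fin 6) (Fin 6) F) *
      ((m1 * m2 : Matrix.SpecialLinearGroup (Fin 6) F) : Matrix (Fin 6) (Fin 6) F) *
      ((m⁻¹ : Matrix.SpecialLinearGroup (Fin 6) F) : Matrix (Fin 6) (Fin 6) F) := by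
    intro i
    rw [hy]
    exact hCJG F N _ _ hN3 (hyk i)
  choose m hm using hm
  have hl : ∀ i, ∃ h : EG C F, Rm C δ (h : Lm C F ≃ₗ[F] Lm C F) (m i) := by
    intro i
    obtain ⟨h, hh, hh'⟩ := hLIF n C F j0 θ δ hE (m i)
    exact ⟨⟨h, hh⟩, hh'⟩
  choose h hh using hl
  refine ⟨fun i => h i * g₀, fun j hj => ?_⟩
  let M : Fin k → Matrix.SpecialLinearGroup (Fin 6) F := fun i => m i * (m1 * m2) * (m i)⁻¹
  have hM : ∀ i, y i = (M i : Matrix (Fin 6) (Fin 6) F) := by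
    intro i
    rw [hm i]
    rfl
  have hRi : ∀ i, Rm C δ ((h i * g₀ * Y * (h i * g₀)⁻¹ : EG C F) : Lm C F ≃ₗ[F] Lm C F) (M i) := by
    intro i
    have e : h i * g₀ * Y * (h i * g₀)⁻¹ = h i * (g₀ * Y * g₀⁻¹) * (h i)⁻¹ := by group
    rw [e]
    exact rm2 _ _ _ _ (rm2 _ _ _ _ (hh i) hR) (rm3 _ _ (hh i))
  have hRp := PRD_Rm_list C δ rm2 rm4 k _ M hRi
  have hRj := PRD_Rm_pow C δ rm2 rm4 _ _ hRp j
  have hZ : (List.ofFn fun i => h i * g₀ * Y * (h i * g₀)⁻¹).prod ^ j = 1 := by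
    refine (hFIX n C F j0 θ δ hE).2 _ fun g => ?_
    rw [← map_pow] at hj
    have := DFunLike.congr_fun hj g
    rw [MulAut.conj_apply, MulAut.one_apply] at this
    exact mul_inv_eq_iff_eq_mul.mp this
  rw [hZ] at hRj
  obtain ⟨e, he⟩ := (hIOI n C F j0 θ δ hE).2 _ hRj
  refine ⟨e, ?_⟩
  rw [Matrix.SpecialLinearGroup.coe_pow, PRD_coe_list k M y hM] at he
  exact he

theorem PRD (hRHO : RHO_stmt) (hRMB : RMB_stmt) (hLIF : LIF_stmt) (hCJG : CJG_stmt) (hKND : KND_stmt) (hIOI : IOI_stmt)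
    (hFIX : FIX_stmt) (hWPG : WPG_stmt) (hTHT : THT_stmt) (hNBR : NBR_stmt) (hTPF : TPF_stmt) (hEXF : EXF_stmt)
    (hUNQ : UNQ_stmt) : PRD_stmt := by
  intro n C _ F _ j0 θ δ hE x a a' m hea hea' him htp hm
  have hNB := (hNBR n C j0 θ δ hE).1
  obtain ⟨ef1, ef2, ef3, ef4⟩ := hEXF n C F hNB
  obtain ⟨rh1, rh2, rh3, rh4, rh5⟩ := hRHO n C j0 θ δ hE
  obtain ⟨k1, hk1, β, hβ, hθβ, c, c', hc, hc', hka, hka'⟩ := htp
  -- the pair in A5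
  obtain ⟨p, q, hpq, hip⟩ : ∃ p q : Fin 6, ((p = 1 ∧ q = 0) ∨ (p = 1 ∧ q = 2) ∨ (p = 2 ∧ q = 3)) ∧
      ip C (ro δ 0 1) (ro δ p q) = m := by
    rcases hm with rfl | rfl | rfl
    · exact ⟨1, 0, Or.inl ⟨rfl, rfl⟩, by rw [rh1]; decide⟩
    · exact ⟨1, 2, Or.inr (Or.inl ⟨rfl, rfl⟩), by rw [rh1]; decide⟩
    · exact ⟨2, 3, Or.inr (Or.inr ⟨rfl, rfl⟩), by rw [rh1]; decide⟩
  have hr01 : ip C (ro δ 0 1) (ro δ 0 1) = 2 := by rw [rh1]; decide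
  have hrpq : ip C (ro δ p q) (ro δ p q) = 2 := by
    rcases hpq with ⟨rfl, rfl⟩ | ⟨rfl, rfl⟩ | ⟨rfl, rfl⟩ <;> (rw [rh1]; decide)
  have hWP := hTHT n C j0 θ δ hE θ β (ro δ 0 1) (ro δ p q) hE.th2 hβ hr01 hrpq (by rw [hθβ, hip]) (by rw [hθβ]; exact hm)
  obtain ⟨k2, hk2, s, s', hs, hs', hk2θ, hk2β⟩ := hWPG n C F hNB θ β (ro δ 0 1) (ro δ p q) hE.th2 hβ hWP
  have hsF : (s : F) ≠ 0 := by rcases hs with rfl | rfl <;> simp
  have hsF' : (s' : F) ≠ 0 := by rcases hs' with rfl | rfl <;> simp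
  -- the element t
  obtain ⟨xtra, ha0, exa1, exa2, exa3, exa4, exa5, exa6, exa7⟩ := ef3 a hea
  obtain ⟨xtra', ha0', exb1, exb2, exb3, exb4, exb5, exb6, exb7⟩ := ef3 a' hea'
  obtain ⟨t, htG, ht⟩ := exa3 1
  obtain ⟨s0, hs0⟩ := (him ⟨t, htG⟩).1 ⟨1, ht⟩
  have hs0n : s0 ≠ 0 := by
    intro h0
    rw [h0] at hs0
    have h1 := PRD_isX_zero C a' _ hs0
    have h2 : x ⟨t, htG⟩ = 1 := Subtype.ext h1
    have h3 : (⟨t, htG⟩ : EG C F) = 1 := by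
      have := congrArg x.symm h2
      simpa using this
    have h4 : t = 1 := congrArg Subtype.val h3
    have h5 : IsX C a 0 t := by
      intro v
      rw [PRD_xe_zero, h4]
      rfl
    exact one_ne_zero (exa5 1 0 t ht h5)
  let g₀ : EG C F := ⟨k2, hk2⟩ * ⟨k1, hk1⟩
  have hg0a : (g₀ : Lm C F ≃ₗ[F] Lm C F) a = (c * s) • (E C (ro δ 0 1) : Lm C F) := by
    show k2 (k1 a) = _
    rw [hka, map_smul, hk2θ, smul_smul]
  have hg0a' : (g₀ : Lm C F ≃ₗ[F] Lm C F) a' = (c' * s') • (E C (ro δ p q) : Lm C F) := by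
    show k2 (k1 a') = _
    rw [hka', map_smul, hk2β, smul_smul]
  -- conjugates
  have hX1 : IsX C (E C (ro δ p q)) (c' * s' * s0) ((g₀ * x ⟨t, htG⟩ * g₀⁻¹ : EG C F) : Lm C F ≃ₗ[F] Lm C F) := by
    apply PRD_isX_smul
    rw [← hg0a']
    exact exb6 _ g₀.2 s0 _ hs0
  have hX2' : IsX C (E C (ro δ 0 1)) (c * s * 1) ((g₀ * ⟨t, htG⟩ * g₀⁻¹ : EG C F) : Lm C F ≃ₗ[F] Lm C F) := by
    apply PRD_isX_smul
    rw [← hg0a]
    exact exa6 _ g₀.2 1 _ ht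
  have hX2 : IsX C (E C (ro δ 0 1)) (-(c * s)) ((g₀ * (⟨t, htG⟩ : EG C F)⁻¹ * g₀⁻¹ : EG C F) : Lm C F ≃ₗ[F] Lm C F) := by
    obtain ⟨-, -, -, -, er3, er4, er5, er6, er7⟩ := ef3 (E C (ro δ 0 1)) (ef2 _ hr01)
    obtain ⟨u, huG, hu⟩ := er3 (-(c * s))
    have h1 := er7 _ _ _ _ hX2' hu
    rw [mul_one, add_neg_cancel] at h1
    have h2 := PRD_isX_zero C _ _ h1
    have h3 : (g₀ * ⟨t, htG⟩ * g₀⁻¹ : EG C F) * ⟨u, huG⟩ = 1 := Subtype.ext h2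
    have h4 : (g₀ * (⟨t, htG⟩ : EG C F)⁻¹ * g₀⁻¹ : EG C F) = ⟨u, huG⟩ := by
      have := eq_inv_of_mul_eq_one_right h3
      rw [this]
      group
    rw [h4]
    exact hu
  obtain ⟨N, hN1, hN2, hN3⟩ := PRD_core hRMB hLIF hCJG hKND hIOI hFIX n C F j0 θ δ hE (x ⟨t, htG⟩ * (⟨t, htG⟩ : EG C F)⁻¹) g₀
    (g₀ * x ⟨t, htG⟩ * g₀⁻¹) (g₀ * (⟨t, htG⟩ : EG C F)⁻¹ * g₀⁻¹) p q hpq (c' * s' * s0) (-(c * s))
    (mul_ne_zero (mul_ne_zero hc' hsF') hs0n) (neg_ne_zero.mpr (mul_ne_zero hc hsF)) hX1 hX2 (by group)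
  exact ⟨⟨t, htG⟩, N, hN1, hN2, hN3⟩

end Pool.Agent.EXC
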